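import Mathlib

/-!
Statements of the parts of the project CG (least positive degree of an element in a Gorenstein
section ring with negative a-invariant).
-/

namespace W977.CG

open Polynomial Filter

/-- Hilbert function of `S / J`: the dimension of the image of `𝒜 n` in `S ⧸ J`. -/
noncomputable def hf {k S : Type} [Field k] [CommRing S] [Algebra k S]
    (𝒜 : ℕ → Submodule k S) (J : Ideal S) (n : ℕ) : ℕ :=
  Module.finrank k ((𝒜 n).map (Ideal.Quotient.mkₐ k J).toLinearMap)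

/-- Hilbert function modulo a homogeneous nonzerodivisor. -/
def PartStep : Prop :=
  ∀ (k S : Type) [Field k] [CommRing S] [Algebra k S] (𝒜 : ℕ → Submodule k S) [GradedAlgebra 𝒜]
    [∀ n, FiniteDimensional k (𝒜 n)] (J : Ideal S), J.IsHomogeneous 𝒜 →
    ∀ (e : ℕ) (f : S), f ∈ 𝒜 e → (∀ x, f * x ∈ J → x ∈ J) →
      (∀ n, n < e → hf 𝒜 (J ⊔ Ideal.span {f}) n = hf 𝒜 J n) ∧
      ∀ n, hf 𝒜 (J ⊔ Ideal.span {f}) (n + e) + hf 𝒜 J n = hf 𝒜 J (n + e)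

/-- Duality of a graded artinian quotient with one-dimensional socle. -/
def PartDual : Prop :=
  ∀ (k S : Type) [Field k] [CommRing S] [Algebra k S] (𝒜 : ℕ → Submodule k S) [GradedAlgebra 𝒜]
    [∀ n, FiniteDimensional k (𝒜 n)] (J : Ideal S), J.IsHomogeneous 𝒜 →
    (∀ x ∈ 𝒜 0, ∃ c : k, x = algebraMap k S c) →
    (∃ N, ∀ n, N ≤ n → ∀ x ∈ 𝒜 n, x ∈ J) →
    ∀ (s : ℕ) (z : S), z ∈ 𝒜 s → z ∉ J →
      (∀ x, (∀ n, 0 < n → ∀ y ∈ 𝒜 n, y * x ∈ J) → ∃ c : k, x - c • z ∈ J) →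
      (∀ n, 0 < n → ∀ y ∈ 𝒜 n, y * z ∈ J) →
      hf 𝒜 J 0 = 1 ∧ (∀ n, s < n → hf 𝒜 J n = 0) ∧ ∀ n, n ≤ s → hf 𝒜 J n = hf 𝒜 J (s - n)

/-- A sequence which is eventually polynomial has a rational generating function with denominator
a power of `1 - X`. -/
def PartEv : Prop :=
  ∀ (f : ℕ → ℚ) (Q : ℚ[X]), (∀ᶠ n in atTop, f n = Q.eval (n : ℚ)) →
    ∃ (K : ℕ) (R : ℚ[X]), (1 - PowerSeries.X) ^ K * PowerSeries.mk f = (R : PowerSeries ℚ)

/-- The numerator of the Hilbert series. -/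
def PartPal : Prop :=
  ∀ (F : PowerSeries ℚ) (D : ℕ) (e : Fin D → ℕ), (∀ i, 0 < e i) →
    ∀ (A : ℚ[X]) (s : ℕ), A.coeff 0 = 1 → (∀ n, s < n → A.coeff n = 0) →
      (∀ n, n ≤ s → A.coeff n = A.coeff (s - n)) → (∀ n, 0 ≤ A.coeff n) →
      F * ∏ i, (1 - PowerSeries.X ^ e i) = (A : PowerSeries ℚ) →
      ∀ (K : ℕ) (R : ℚ[X]), (1 - PowerSeries.X) ^ K * F = (R : PowerSeries ℚ) →
      ∃ P : ℚ[X], F * (1 - PowerSeries.X) ^ D = (P : PowerSeries ℚ) ∧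
        P.natDegree + ∑ i, (e i - 1) = s ∧ P.coeff 0 = 1 ∧
        (∀ n, n ≤ P.natDegree → P.coeff n = P.coeff (P.natDegree - n)) ∧ 0 < P.eval 1

/-- The generating function of `S ⧸ (θ)` for a homogeneous regular sequence `θ`. -/
def PartProd : Prop :=
  ∀ (k S : Type) [Field k] [CommRing S] [Algebra k S] (𝒜 : ℕ → Submodule k S) [GradedAlgebra 𝒜]
    [∀ n, FiniteDimensional k (𝒜 n)] (D : ℕ) (e : Fin D → ℕ) (θ : Fin D → S),
    (∀ i, θ i ∈ 𝒜 (e i)) →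
    (∀ i x, θ i * x ∈ Ideal.span (θ '' {j | j < i}) → x ∈ Ideal.span (θ '' {j | j < i})) →
    PowerSeries.mk (fun n => (Module.finrank k (𝒜 n) : ℚ)) * ∏ i, (1 - PowerSeries.X ^ e i) =
      PowerSeries.mk (fun n => (hf 𝒜 (Ideal.span (Set.range θ)) n : ℚ))

/-- The combinatorial end. -/
def PartComb : Prop :=
  ∀ (F : PowerSeries ℚ) (D : ℕ) (P : ℚ[X]),
    F * (1 - PowerSeries.X) ^ D = (P : PowerSeries ℚ) → P.natDegree < D → P.coeff 0 = 1 →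
    (∀ n, n ≤ P.natDegree → P.coeff n = P.coeff (P.natDegree - n)) → 0 < P.eval 1 →
    (∃ m, 1 ≤ m ∧ m ≤ 2 * (P.natDegree / 4) + 1 ∧ PowerSeries.coeff m F ≠ 0) ∧
      (P.natDegree ≤ 3 → (D : ℚ) - 2 < PowerSeries.coeff 1 F)

end W977.CG
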