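import Mathlib
import Pool.Agent.W977.CG.Spec

/-!
Assembly of the project CG.
-/

namespace W977.CG

open Polynomial Filter

theorem main (hDual : PartDual) (hEv : PartEv) (hPal : PartPal) (hProd : PartProd)
    (hComb : PartComb) (k S : Type) [Field k] [CommRing S] [Algebra k S] (𝒜 : ℕ → Submodule k S)
    [GradedAlgebra 𝒜] [∀ n, FiniteDimensional k (𝒜 n)] (D : ℕ)
    (h0 : ∀ x ∈ 𝒜 0, ∃ c : k, x = algebraMap k S c)
    (e : Fin D → ℕ) (θ : Fin D → S) (s : ℕ) (z : S) (he : ∀ i, 0 < e i) (hθ : ∀ i, θ i ∈ 𝒜 (e i))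
    (hreg : ∀ i x, θ i * x ∈ Ideal.span (θ '' {j | j < i}) → x ∈ Ideal.span (θ '' {j | j < i}))
    (hart : ∃ N, ∀ n, N ≤ n → ∀ x ∈ 𝒜 n, x ∈ Ideal.span (Set.range θ))
    (hz : z ∈ 𝒜 s) (hzJ : z ∉ Ideal.span (Set.range θ))
    (hsoc : ∀ x, (∀ n, 0 < n → ∀ y ∈ 𝒜 n, y * x ∈ Ideal.span (Set.range θ)) ↔
      ∃ c : k, x - c • z ∈ Ideal.span (Set.range θ))
    (hQ : ∃ Q : ℚ[X], ∀ᶠ n in atTop, (Module.finrank k (𝒜 n) : ℚ) = Q.eval (n : ℚ))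
    (ha : (s : ℤ) - ∑ i, (e i : ℤ) < 0) :
    (∃ m : ℕ, 1 ≤ m ∧ (m : ℤ) ≤ 2 * ((D + ((s : ℤ) - ∑ i, (e i : ℤ))) / 4) + 1 ∧ 𝒜 m ≠ ⊥) ∧
      ((D : ℤ) + ((s : ℤ) - ∑ i, (e i : ℤ)) ≤ 3 → (D : ℤ) - 1 ≤ Module.finrank k (𝒜 1)) := by
  obtain ⟨Q, hQ⟩ := hQ
  set J : Ideal S := Ideal.span (Set.range θ) with hJdef
  have hJ : J.IsHomogeneous 𝒜 := by
    apply Ideal.homogeneous_span
    rintro _ ⟨i, rfl⟩
    exact ⟨e i, hθ i⟩
  have hz' : ∀ n, 0 < n → ∀ y ∈ 𝒜 n, y * z ∈ J :=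
    (hsoc z).mpr ⟨1, by rw [one_smul, sub_self]; exact J.zero_mem⟩
  obtain ⟨d0, d1, d2⟩ := hDual k S 𝒜 J hJ h0 hart s z hz hzJ (fun x hx => (hsoc x).mp hx) hz'
  obtain ⟨K, R, hKR⟩ := hEv _ Q hQ
  set F : PowerSeries ℚ := PowerSeries.mk (fun n => (Module.finrank k (𝒜 n) : ℚ)) with hF
  have hprod := hProd k S 𝒜 D e θ hθ hreg
  rw [← hF, ← hJdef] at hprod
  set A : ℚ[X] := ∑ n ∈ Finset.range (s + 1), C (hf 𝒜 J n : ℚ) * X ^ n with hA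
  have hAc : ∀ n, A.coeff n = (hf 𝒜 J n : ℚ) := by
    intro n
    rw [hA, Polynomial.finsetSum_coeff]
    simp only [coeff_C_mul, coeff_X_pow, mul_ite, mul_one, mul_zero]
    rw [Finset.sum_ite_eq (Finset.range (s + 1)) n]
    split_ifs with h
    · rfl
    · rw [d1 n (by simpa using h)]; simp
  have hAF : F * ∏ i, (1 - PowerSeries.X ^ e i) = (A : PowerSeries ℚ) := by
    rw [hprod]
    ext n
    rw [PowerSeries.coeff_mk, Polynomial.coeff_coe, hAc]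
  obtain ⟨P, hP, hdeg, hP0, hPs, hP1⟩ := hPal F D e he A s (by rw [hAc, d0]; simp)
    (fun n hn => by rw [hAc, d1 n hn]; simp) (fun n hn => by rw [hAc, hAc, d2 n hn])
    (fun n => by rw [hAc]; positivity) hAF K R hKR
  have hsum : (P.natDegree : ℤ) = D + ((s : ℤ) - ∑ i, (e i : ℤ)) := by
    have h1 : (∑ i, ((e i - 1 : ℕ) : ℤ)) = ∑ i, (e i : ℤ) - D := by
      have h2 : ∀ i ∈ (Finset.univ : Finset (Fin D)), ((e i - 1 : ℕ) : ℤ) = (e i : ℤ) - 1 := by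
        intro i _
        have := he i
        omega
      rw [Finset.sum_congr rfl h2, Finset.sum_sub_distrib]
      simp
    have h3 : ((P.natDegree + ∑ i, (e i - 1) : ℕ) : ℤ) = s := by rw [hdeg]
    push_cast at h3
    rw [h1] at h3
    linarith
  obtain ⟨⟨m, hm1, hm2, hm3⟩, hc⟩ := hComb F D P hP (by omega) hP0 hPs hP1
  refine ⟨⟨m, hm1, ?_, ?_⟩, ?_⟩
  · rw [← hsum]; omega
  · intro hbot
    apply hm3
    rw [hF, PowerSeries.coeff_mk, hbot]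
    simp
  · intro h
    have h4 := hc (by omega)
    rw [hF, PowerSeries.coeff_mk] at h4
    have h5 : ((D : ℤ) : ℚ) - 2 < ((Module.finrank k (𝒜 1) : ℤ) : ℚ) := by
      push_cast; exact h4
    have h6 : (D : ℤ) - 2 < (Module.finrank k (𝒜 1) : ℤ) := by exact_mod_cast h5
    omega

end W977.CG
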